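import Pool.Agent.V5helper10.GK.Stm
import Pool.Agent.V5helper77.KSC.Gb

/-!
# GK, job TYP: the coordinates of pure classes
-/

set_option linter.unusedSectionVars false

open CategoryTheory AlgebraicGeometry TensorProduct

universe u

namespace Pool.Agent.V5helper28.GK

open Module Matrix
open Pool.Agent.H914 Pool.Agent.H914.VarClass Pool.Agent.H914.VarClass.Obj
  Pool.Agent.H914.WeilCohomology
open Pool.Agent.Y133.Half Pool.Agent.Y121.AH
open Pool.Agent.N996.BP Pool.Agent.N996.BP.Geo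
open Pool.Agent.V5helper10.KSC Pool.Agent.V5helper10.GK
open Pool.Agent.W544.K3 (K3Type bil app cj)
open Pool.Agent.N996.FP (crd_gr)

variable {k : Type u} [Field k] {𝒱 : VarClass k} {ops : CycleOps 𝒱} {T : HodgeTheory ops}
  {X : 𝒱.Obj}

lemma crd_mk {κ : Type} [Fintype κ] [DecidableEq κ] (f : Basis κ T.W.K (T.W.H X)) (v : κ → ℂ) :
    crd f (∑ i, (v i) ⊗ₜ[T.W.K] (f i)) = v := by
  have h : ∑ i, (v i) ⊗ₜ[T.W.K] (f i) = ∑ i, v i • (f.baseChange ℂ) i := by
    refine Finset.sum_congr rfl fun i _ => ?_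
    rw [Basis.baseChange_apply, TensorProduct.smul_tmul', smul_eq_mul, mul_one]
  rw [crd, h]
  exact (f.baseChange ℂ).repr_sum_self v

lemma mk_inr {r s : ℕ} (f : Basis (Fin s ⊕ Fin r) T.W.K (T.W.H X)) (u : Fin r → ℂ) :
    ∑ i, (u i) ⊗ₜ[T.W.K] (f (Sum.inr i)) =
      ∑ i, ((Sum.elim (fun _ => 0) u : Fin s ⊕ Fin r → ℂ) i) ⊗ₜ[T.W.K] (f i) := by
  rw [Fintype.sum_sum_type]
  simp only [Sum.elim_inl, Sum.elim_inr, TensorProduct.zero_tmul, Finset.sum_const_zero, zero_add]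

lemma cup_coord {r s : ℕ} (f : Basis (Fin s ⊕ Fin r) T.W.K (T.W.H X))
    (h0 : ∀ i a, T.W.tr X (f (Sum.inl i) * f (Sum.inr a)) = 0) (B : Matrix (Fin r) (Fin r) ℚ)
    (hB : ∀ i j, ((B i j : ℚ) : T.W.K) = T.W.tr X (f (Sum.inr i) * f (Sum.inr j)))
    (v : Fin s ⊕ Fin r → ℂ) (u : Fin r → ℂ) :
    (cupF T.W X).baseChange ℂ (∑ i, (v i) ⊗ₜ[T.W.K] (f i))
      (∑ i, (u i) ⊗ₜ[T.W.K] (f (Sum.inr i))) = bil B (v ∘ Sum.inr) u := by
  rw [map_sum (LinearMap.BilinForm.baseChange ℂ (cupF T.W X)), LinearMap.sum_apply,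
    Fintype.sum_sum_type, W544.K3.bil]
  simp only [map_sum, V5helper77.KSC.cup_tmul, h0, map_zero, mul_zero, Finset.sum_const_zero, zero_add,
    ← hB, map_ratCast, Function.comp_apply]
  refine Finset.sum_congr rfl fun i _ => Finset.sum_congr rfl fun j _ => ?_
  ring

theorem t_TYP : S_TYP.{u} := by
  intro k _ 𝒱 ops T X Dv hK r s f cod hcod htr h0 Y hB hω p q v hv
  obtain ⟨x, hx⟩ : ∃ x, x = ∑ i, (v i) ⊗ₜ[T.W.K] (f i) := ⟨_, rfl⟩
  have hcx : crd f x = v := by rw [hx, crd_mk]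
  rw [← hx] at hv
  by_cases hv0 : v = 0
  · exact Or.inl hv0
  right
  have hx0 : x ≠ 0 := by
    intro h
    apply hv0
    rw [← hcx, h, crd_zero]
  obtain ⟨h1, h2, h3, h4⟩ := V5helper77.KSC.Fx_range hK hv hx0
  -- the class of the two-form
  obtain ⟨y, hy⟩ : ∃ y, y = ∑ i, (Y.ω i) ⊗ₜ[T.W.K] (f (Sum.inr i)) := ⟨_, rfl⟩
  have hcy : crd f y = Sum.elim (fun _ => 0) Y.ω := by rw [hy, mk_inr, crd_mk]
  rw [← hy] at hω
  have hω0 : Y.ω ≠ 0 := by
    intro h
    have h5 := Y.pos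
    rw [h] at h5
    simp [W544.K3.bil] at h5
  have hy0 : y ≠ 0 := by
    intro h
    apply hω0
    rw [h, crd_zero] at hcy
    funext i
    exact (congrFun hcy (Sum.inr i)).symm
  -- the conjugate
  have hcs : crd f (sig (tauT T) y) = Sum.elim (fun _ => 0) (cj Y.ω) := by
    funext i
    rw [congrFun (crd_sig f (fun z => tauT_apply T z) y) i, hcy]
    rcases i with i | i
    · simp
    · rfl
  have hsy : sig (tauT T) y = ∑ i, (cj Y.ω i) ⊗ₜ[T.W.K] (f (Sum.inr i)) := by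
    apply crd_inj f
    rw [hcs, mk_inr, crd_mk]
  have hsyF : sig (tauT T) y ∈ Fx T X (0, 2) := hK.cnj 2 0 y hω
  -- degrees
  have hdeg : ∀ j, f j ∈ T.W.gr X (Sum.elim (fun i => 2 * cod i) (fun _ => 2) j) := by
    rintro (i | i)
    · exact (hcod i).1
    · exact (htr i).1
  obtain ⟨n, hn⟩ : ∃ n : ℕ, p + q = n := ⟨(p + q).toNat, by omega⟩
  have hcrd : ∀ j, (Sum.elim (fun i => 2 * cod i) (fun _ => 2) : Fin s ⊕ Fin r → ℕ) j ≠ n → v j = 0 := by
    intro j hj
    rw [← hcx]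
    exact crd_gr (T.W.isInternal X) hdeg (V5helper77.KSC.Fx_gr hn hv) hj
  have hev : n % 2 = 0 := by
    by_contra hodd
    apply hv0
    funext j
    apply hcrd
    rcases j with i | i
    · simp only [Sum.elim_inl]; omega
    · simp only [Sum.elim_inr]; omega
  have hlin : ∀ z ∈ Fx T X (2, 0), ∃ c : ℂ, c • y = z := by
    intro z hz
    have h5 := (finrank_eq_one_iff_of_nonzero' (⟨y, hω⟩ : Fx T X (2, 0)) (by
      intro h
      exact hy0 (congrArg Subtype.val h))).1 hK.one ⟨z, hz⟩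
    obtain ⟨c, hc⟩ := h5
    exact ⟨c, congrArg Subtype.val hc⟩
  have hsm : ∀ (c : ℂ) (z : ℂ ⊗[T.W.K] T.W.H X), crd f (c • z) = c • crd f z := by
    intro c z
    rw [← Pool.Agent.N996.FP.ecr_apply, ← Pool.Agent.N996.FP.ecr_apply, map_smul]
  by_cases hpq : p = q
  · -- diagonal types
    right
    right
    refine ⟨hpq, ?_⟩
    by_cases hp1 : p = 1
    · subst hpq
      subst hp1
      have h5 := V5helper77.KSC.cup_Fx hK hv hω (by norm_num)
      have h6 := V5helper77.KSC.cup_Fx hK hv hsyF (by norm_num)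
      rw [hx, hy, cup_coord f h0 Y.B hB] at h5
      rw [hx, hsy, cup_coord f h0 Y.B hB] at h6
      exact ⟨h5, h6⟩
    · have h5 : v ∘ Sum.inr = (0 : Fin r → ℂ) := by
        funext a
        apply hcrd
        simp only [Sum.elim_inr]
        omega
      rw [h5]
      simp [W544.K3.bil]
  · have hc : (p = 2 ∧ q = 0) ∨ (p = 0 ∧ q = 2) := by omega
    rcases hc with ⟨hp, hq⟩ | ⟨hp, hq⟩
    · left
      refine ⟨hp, hq, ?_⟩
      subst hp
      subst hq
      obtain ⟨c, hc⟩ := hlin x hv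
      refine ⟨c, ?_⟩
      rw [← hcx, ← hc, hsm, hcy]
    · right
      left
      refine ⟨hp, hq, ?_⟩
      subst hp
      subst hq
      obtain ⟨c, hc⟩ := hlin _ (hK.cnj 0 2 x hv)
      refine ⟨(starRingEnd ℂ) c, ?_⟩
      have h5 : crd f (sig (tauT T) x) = c • Sum.elim (fun _ => 0) Y.ω := by rw [← hc, hsm, hcy]
      funext i
      have h6 := congrFun h5 i
      rw [congrFun (crd_sig f (fun z => tauT_apply T z) x) i, hcx] at h6
      have h7 := congrArg (starRingEnd ℂ) h6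
      rw [Complex.conj_conj] at h7
      rw [h7]
      rcases i with i | i
      · simp
      · simp [cj]

end Pool.Agent.V5helper28.GK
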